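import Pool.Agent.Q18.Mix2

/-!
MP_892d82_al, Q1: every finite group without nontrivial quotients of odd order is mixable, that is,
some random subproduct `g₁^ε₁ ⋯ g_k^ε_k` with independent Bernoulli exponents is exactly uniformly
distributed.
-/

namespace Pool.Agent.Results.MP_892d82_al.Mixable

universe u

open Classical in
/-- The probability that the random product `g₁^ε₁ ⋯ g_k^ε_k` equals `h`, where the `εᵢ` are
independent Bernoulli variables with `Pr(εᵢ = 1) = pᵢ`: the sum over all outcomes
`ε : Fin k → Bool` whose product is `h` of the probability of the outcome. -/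
noncomputable def subproductProb {G : Type u} [Group G] {k : ℕ} (g : Fin k → G) (p : Fin k → ℝ)
    (h : G) : ℝ :=
  ∑ ε : Fin k → Bool,
    if (List.ofFn fun i => if ε i then g i else 1).prod = h then
      ∏ i, (if ε i then p i else 1 - p i) else 0

/-- `G` is mixable: for some `k ≥ 0`, `g₁, …, g_k ∈ G` and `p₁, …, p_k ∈ [0,1]` the random
subproduct is exactly uniformly distributed on `G`. -/
def IsMixable (G : Type u) [Group G] : Prop :=
  ∃ (k : ℕ) (g : Fin k → G) (p : Fin k → ℝ), (∀ i, 0 ≤ p i ∧ p i ≤ 1) ∧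
    ∀ h : G, subproductProb g p h = 1 / (Nat.card G : ℝ)

/-- `G` is `2'`-simple: its only normal subgroup of odd index is `G` itself. -/
def IsTwoPrimeSimple (G : Type u) [Group G] : Prop :=
  ∀ N : Subgroup G, N.Normal → Odd N.index → N = ⊤

theorem prob_nil {G : Type u} [Group G] (g : Fin 0 → G) (p : Fin 0 → ℝ) (h : G) :
    subproductProb g p h = Q18.Mix.dl G h := by
  classical
  simp only [subproductProb, Q18.Mix.dl, List.ofFn_zero, List.prod_nil, Finset.univ_unique,
    Finset.sum_singleton, Finset.univ_eq_empty, Finset.prod_empty]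
  by_cases h1 : h = 1
  · simp [h1]
  · rw [if_neg h1, if_neg (fun h2 => h1 h2.symm)]

theorem prob_cons {G : Type u} [Group G] {k : ℕ} (g : Fin k → G) (p : Fin k → ℝ) (g0 : G)
    (p0 : ℝ) (h : G) :
    subproductProb (Fin.cons g0 g : Fin (k + 1) → G) (Fin.cons p0 p) h =
      (1 - p0) * subproductProb g p h + p0 * subproductProb g p (g0⁻¹ * h) := by
  classical
  simp only [subproductProb]
  rw [← Equiv.sum_comp (Fin.consEquiv (fun _ : Fin (k + 1) => Bool)), Fintype.sum_prod_type,
    Fintype.sum_bool]
  simp only [Fin.consEquiv_apply, List.ofFn_succ, List.prod_cons, Fin.prod_univ_succ,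
    Fin.cons_zero, Fin.cons_succ, if_true, Bool.false_eq_true, if_false, one_mul]
  rw [add_comm, Finset.mul_sum, Finset.mul_sum]
  congr 1
  · refine Finset.sum_congr rfl fun ε _ => ?_
    split_ifs <;> ring
  · refine Finset.sum_congr rfl fun ε _ => ?_
    have : (g0 * (List.ofFn fun i => if ε i then g i else 1).prod = h) ↔
        ((List.ofFn fun i => if ε i then g i else 1).prod = g0⁻¹ * h) := by
      constructor
      · intro h1; rw [← h1, inv_mul_cancel_left]
      · intro h1; rw [h1, mul_inv_cancel_left]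
    simp only [this]
    split_ifs <;> ring

theorem exists_of_list {G : Type u} [Group G] (l : List (ℝ × G))
    (hl : ∀ a ∈ l, 0 ≤ a.1 ∧ a.1 ≤ 1) :
    ∃ (k : ℕ) (g : Fin k → G) (p : Fin k → ℝ), (∀ i, 0 ≤ p i ∧ p i ≤ 1) ∧
      ∀ h : G, subproductProb g p h = Q18.Mix.run l (Q18.Mix.dl G) h := by
  induction l with
  | nil =>
    refine ⟨0, Fin.elim0, Fin.elim0, fun i => i.elim0, fun h => ?_⟩
    rw [prob_nil]
    rfl
  | cons a l ih =>
    obtain ⟨k, g, p, hp, hg⟩ := ih (fun b hb => hl b (List.mem_cons_of_mem _ hb))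
    refine ⟨k + 1, Fin.cons a.2 g, Fin.cons a.1 p, ?_, fun h => ?_⟩
    · intro i
      refine Fin.cases ?_ (fun j => ?_) i
      · simpa using hl a List.mem_cons_self
      · simpa using hp j
    · rw [prob_cons, hg, hg]
      rfl

/-- Every finite `2'`-simple group is mixable. -/
theorem result : ∀ (G : Type u) [Group G] [Finite G], IsTwoPrimeSimple G → IsMixable G := by
  intro G _ _ hG
  obtain ⟨l, hl, hrun⟩ := Q18.Mix.Mx_main (Nat.card G) G rfl hG
  obtain ⟨k, g, p, hp, hg⟩ := exists_of_list l hl
  refine ⟨k, g, p, hp, fun h => ?_⟩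
  rw [hg, hrun]

end Pool.Agent.Results.MP_892d82_al.Mixable
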